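import Pool.Agent.Helper84.FX.StX

/-!
# Project FX, chapter T, module TYU: tameness of `U` on `Y`
-/

set_option autoImplicit false

namespace Pool.Agent.Helper82.FX

open Set Pool.Agent.Helper84.FX Pool.Agent.Helper72.FX

private lemma hfd {σ : Type} [Fintype σ] [DecidableEq σ] (P : MvPolynomial σ ℂ) (z : σ → ℂ) :
    HasFDerivAt (𝕜 := ℂ) (fun w : σ → ℂ => MvPolynomial.eval w P)
      (∑ j, MvPolynomial.eval z (MvPolynomial.pderiv j P) •
        (ContinuousLinearMap.proj j : (σ → ℂ) →L[ℂ] ℂ)) z := by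
  induction P using MvPolynomial.induction_on with
  | C a =>
    simp only [MvPolynomial.eval_C]
    refine (hasFDerivAt_const (𝕜 := ℂ) a z).congr_fderiv ?_
    ext v
    simp
  | add p q hp hq =>
    simp only [map_add]
    refine (hp.add hq).congr_fderiv ?_
    ext v
    simp [add_mul, Finset.sum_add_distrib]
  | mul_X p i hp =>
    simp only [map_mul, MvPolynomial.eval_X]
    have h := hp.mul ((ContinuousLinearMap.proj i : (σ → ℂ) →L[ℂ] ℂ).hasFDerivAt (x := z))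
    refine h.congr_fderiv ?_
    ext v
    simp only [MvPolynomial.pderiv_mul, MvPolynomial.pderiv_X, map_add, map_mul,
      MvPolynomial.eval_X, add_apply, smul_apply,
      sum_apply, ContinuousLinearMap.proj_apply, smul_eq_mul, add_mul,
      Finset.sum_add_distrib, Finset.mul_sum]
    rw [add_comm]
    congr 1
    · refine Finset.sum_congr rfl fun j _ => ?_
      ring
    · rw [Finset.sum_eq_single i]
      · simp
      · intro j _ hj
        simp [Pi.single_apply, hj, Ne.symm hj]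
      · intro hh
        exact absurd (Finset.mem_univ _) hh

private lemma hcd {σ : Type} [Fintype σ] (P : MvPolynomial σ ℂ) :
    ContDiff ℝ 1 (fun w : σ → ℂ => MvPolynomial.eval w P) := by
  induction P using MvPolynomial.induction_on with
  | C a => simpa using contDiff_const
  | add p q hp hq => simpa using hp.add hq
  | mul_X p i hp => simpa using hp.mul (contDiff_apply ℝ ℂ i)

/-- the equation of `Y` -/
private noncomputable def ee (y : Fin 2 ⊕ Fin 12 → ℂ) : ℂ :=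
  y (Sum.inl 0) * y (Sum.inl 1) - MvPolynomial.eval (fun j => y (Sum.inr j)) FP

private noncomputable def Lr : (Fin 2 ⊕ Fin 12 → ℂ) →L[ℂ] (Fin 12 → ℂ) :=
  ContinuousLinearMap.pi (fun j => ContinuousLinearMap.proj (Sum.inr j))

private lemma hee (y : Fin 2 ⊕ Fin 12 → ℂ) :
    HasFDerivAt (𝕜 := ℂ) ee
      ((y (Sum.inl 0) • (ContinuousLinearMap.proj (Sum.inl 1) : (Fin 2 ⊕ Fin 12 → ℂ) →L[ℂ] ℂ)
        + y (Sum.inl 1) • (ContinuousLinearMap.proj (Sum.inl 0) : (Fin 2 ⊕ Fin 12 → ℂ) →L[ℂ] ℂ))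
        - (∑ j, MvPolynomial.eval (fun j => y (Sum.inr j)) (MvPolynomial.pderiv j FP) •
          (ContinuousLinearMap.proj j : (Fin 12 → ℂ) →L[ℂ] ℂ)).comp Lr) y := by
  have h0 := (ContinuousLinearMap.proj (Sum.inl 0) :
    (Fin 2 ⊕ Fin 12 → ℂ) →L[ℂ] ℂ).hasFDerivAt (x := y)
  have h1 := (ContinuousLinearMap.proj (Sum.inl 1) :
    (Fin 2 ⊕ Fin 12 → ℂ) →L[ℂ] ℂ).hasFDerivAt (x := y)
  have h2 : HasFDerivAt (𝕜 := ℂ) (fun w : Fin 2 ⊕ Fin 12 → ℂ =>
      MvPolynomial.eval (Lr w) FP)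
      ((∑ j, MvPolynomial.eval (Lr y) (MvPolynomial.pderiv j FP) •
          (ContinuousLinearMap.proj j : (Fin 12 → ℂ) →L[ℂ] ℂ)).comp Lr) y :=
    (hfd FP (Lr y)).comp y (Lr.hasFDerivAt (x := y))
  exact (h0.mul h1).sub h2

theorem hTYU : StTMC → StKSM → StEV → TgtZ → StTYU := by
  intro hTMC _ _ hZ U hU
  have hΩ : IsOpen {y : Fin 2 ⊕ Fin 12 → ℂ | y (Sum.inr 2) ∈ U} :=
    hU.preimage (continuous_apply (Sum.inr 2))
  have hcl : ContDiff ℝ 1 (fun y : Fin 2 ⊕ Fin 12 → ℂ => y (Sum.inl 0)) :=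
    contDiff_apply ℝ ℂ (Sum.inl 0)
  have hce : ContDiff ℝ 1 ee := by
    unfold ee
    refine (hcl.mul (contDiff_apply ℝ ℂ (Sum.inl 1))).sub ?_
    exact (hcd FP).comp (contDiff_pi.2 fun j => contDiff_apply ℝ ℂ (Sum.inr j))
  have hmain := hTMC (Fin 2 ⊕ Fin 12 → ℂ) ℂ ℂ {y : Fin 2 ⊕ Fin 12 → ℂ | y (Sum.inr 2) ∈ U}
    ee (fun y => y (Sum.inl 0)) hΩ hce.contDiffOn hcl.contDiffOn ?_
  · have hset : {x : Fin 2 ⊕ Fin 12 → ℂ | x ∈ {y : Fin 2 ⊕ Fin 12 → ℂ | y (Sum.inr 2) ∈ U} ∧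
        ee x = 0} = YU U := by
      ext y
      simp only [mem_ofPred_eq, YU, YY, ee, sub_eq_zero]
      exact and_comm
    rw [hset] at hmain
    exact hmain
  · intro y _ hy0 hg0
    have hg0' : y (Sum.inl 0) = 0 := hg0
    have hF : MvPolynomial.eval (fun j => y (Sum.inr j)) FP = 0 := by
      have h := hy0
      unfold ee at h
      rw [hg0', zero_mul, zero_sub, neg_eq_zero] at h
      exact h
    obtain ⟨j, hj⟩ := hZ (fun j => y (Sum.inr j)) hF
    have h1 := (hee y).restrictScalars ℝ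
    have h2 : HasFDerivAt (𝕜 := ℝ) (fun y : Fin 2 ⊕ Fin 12 → ℂ => y (Sum.inl 0))
        ((ContinuousLinearMap.proj (Sum.inl 0) :
          (Fin 2 ⊕ Fin 12 → ℂ) →L[ℂ] ℂ).restrictScalars ℝ) y :=
      ((ContinuousLinearMap.proj (Sum.inl 0) :
          (Fin 2 ⊕ Fin 12 → ℂ) →L[ℂ] ℂ).hasFDerivAt (x := y)).restrictScalars ℝ
    have h3 := h1.prodMk h2
    rw [h3.fderiv]
    rintro ⟨α, β⟩
    set d := MvPolynomial.eval (fun j => y (Sum.inr j)) (MvPolynomial.pderiv j FP) with hd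
    refine ⟨Sum.elim (fun i => if i = 0 then β else 0)
      (fun i => if i = j then (β * y (Sum.inl 1) - α) / d else 0), ?_⟩
    refine Prod.ext ?_ ?_
    · simp [Lr, hg0', ← hd]
      field_simp
      ring
    · simp
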